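import Mathlib

/-!
A measurable symmetric set `S` in a non-discrete locally compact group such that `S` and its
complement both have positive Haar measure in every neighbourhood of the identity.
-/

open MeasureTheory Set Filter Topology
open scoped Pointwise ENNReal

namespace Pool.Agent.H516R3.BeurSet

variable {G : Type*} [Group G] [TopologicalSpace G] [IsTopologicalGroup G]

/-- `d f x = sup_t |f (t x) - f t|`. -/
noncomputable def d (f : G → ℝ) (x : G) : ℝ := ⨆ t, |f (t * x) - f t|

set_option linter.unusedSectionVars false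

section
variable {f : G → ℝ} (h01 : ∀ x, f x ∈ Icc (0 : ℝ) 1)
include h01

lemma bdd (x : G) : BddAbove (range fun t => |f (t * x) - f t|) := by
  refine ⟨1, ?_⟩
  rintro _ ⟨t, rfl⟩
  have h1 := h01 (t * x)
  have h2 := h01 t
  simp only [mem_Icc] at h1 h2
  exact abs_le.mpr ⟨by linarith, by linarith⟩

lemma le_d (x t : G) : |f (t * x) - f t| ≤ d f x := le_ciSup (bdd h01 x) t

omit h01 in
lemma d_le {x : G} {c : ℝ} (h : ∀ t, |f (t * x) - f t| ≤ c) : d f x ≤ c := ciSup_le h

omit [TopologicalSpace G] [IsTopologicalGroup G] h01 in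
lemma d_one : d f 1 = 0 := by simp [d]

lemma d_nonneg (x : G) : 0 ≤ d f x := (abs_nonneg _).trans (le_d h01 x 1)

lemma d_mul_le (x y : G) : d f (x * y) ≤ d f x + d f y := by
  apply d_le
  intro t
  have h1 := le_d h01 y (t * x)
  have h2 := le_d h01 x t
  have h3 : |f (t * (x * y)) - f t| ≤ |f (t * x * y) - f (t * x)| + |f (t * x) - f t| := by
    rw [← mul_assoc]
    exact abs_sub_le _ _ _
  linarith

lemma d_inv (x : G) : d f x⁻¹ = d f x := by
  apply le_antisymm
  · apply d_le
    intro t
    have := le_d h01 x (t * x⁻¹)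
    simpa [abs_sub_comm] using this
  · apply d_le
    intro t
    have := le_d h01 x⁻¹ (t * x)
    simpa [abs_sub_comm] using this

lemma d_mul_of_zero {x l : G} (hl : d f l = 0) : d f (x * l) = d f x := by
  apply le_antisymm
  · have := d_mul_le h01 x l
    linarith
  · have := d_mul_le h01 (x * l) l⁻¹
    rw [d_inv h01, hl] at this
    simpa using this

variable (hf : Continuous f) (hc : HasCompactSupport f)
include hf hc

omit h01 in
lemma d_small [LocallyCompactSpace G] [T2Space G] {ε : ℝ} (hε : 0 < ε) :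
    ∀ᶠ x in 𝓝 (1 : G), d f x ≤ ε := by
  obtain ⟨K₀, hK₀, hK₀1⟩ := exists_compact_mem_nhds (1 : G)
  have hK' : IsCompact (tsupport f * K₀⁻¹ ∪ tsupport f) := (hc.isCompact.mul hK₀.inv).union hc.isCompact
  have key : ∀ᶠ x in 𝓝 (1 : G), ∀ t ∈ (tsupport f * K₀⁻¹ ∪ tsupport f), |f (t * x) - f t| < ε := by
    apply hK'.eventually_forall_of_forall_eventually
    intro t ht
    have hcont : Continuous fun z : G × G => |f (z.2 * z.1) - f z.2| := by fun_prop
    have := hcont.tendsto (1, t)
    simp only [mul_one, sub_self, abs_zero] at this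
    exact (tendsto_order.1 this).2 ε hε
  filter_upwards [key, hK₀1] with x hx hxK
  apply d_le
  intro t
  by_cases ht : t ∈ (tsupport f * K₀⁻¹ ∪ tsupport f)
  · exact (hx t ht).le
  · have h1 : f t = 0 := by
      by_contra h
      exact ht (Or.inr (subset_tsupport _ h))
    have h2 : f (t * x) = 0 := by
      by_contra h
      refine ht (Or.inl ?_)
      exact ⟨t * x, subset_tsupport _ h, x⁻¹, Set.inv_mem_inv.mpr hxK, by simp⟩
    simp [h1, h2, hε.le]

lemma d_cont [LocallyCompactSpace G] [T2Space G] : Continuous (d f) := by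
  rw [continuous_iff_continuousAt]
  intro x
  rw [ContinuousAt, Metric.tendsto_nhds]
  intro ε hε
  have h1 : Tendsto (fun y : G => x⁻¹ * y) (𝓝 x) (𝓝 1) := by
    have : Continuous fun y : G => x⁻¹ * y := by fun_prop
    simpa using this.tendsto x
  have h2 := h1.eventually (d_small hf hc (half_pos hε))
  filter_upwards [h2] with y hy
  rw [Real.dist_eq]
  have h3 : d f y ≤ d f x + d f (x⁻¹ * y) := by
    simpa using d_mul_le h01 x (x⁻¹ * y)
  have h4 : d f x ≤ d f y + d f (x⁻¹ * y)⁻¹ := by
    simpa using d_mul_le h01 y (x⁻¹ * y)⁻¹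
  rw [d_inv h01] at h4
  rw [abs_lt]
  constructor <;> linarith

end

lemma exists_f (G : Type*) [Group G] [TopologicalSpace G] [IsTopologicalGroup G]
    [LocallyCompactSpace G] [T2Space G] [MeasurableSpace G] [BorelSpace G]
    (hG : ¬ DiscreteTopology G) (μ : Measure G) [μ.IsHaarMeasure] [μ.Regular] :
    ∃ f : C(G, ℝ), HasCompactSupport f ∧ (∀ x, f x ∈ Icc (0 : ℝ) 1) ∧ f 1 = 1 ∧
      μ {x | f x = 1} = 0 := by
  have hne : (𝓝[≠] (1 : G)).NeBot := by
    rw [neBot_iff]
    intro h
    apply hG
    apply discreteTopology_of_isOpen_singleton_one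
    exact isOpen_singleton_iff_punctured_nhds _ |>.mpr h
  have h0 : μ {(1 : G)} = 0 := by
    have := hne
    exact measure_singleton 1
  have hU : ∀ n : ℕ, ∃ U : Set G, {(1 : G)} ⊆ U ∧ IsOpen U ∧ μ U < ((n : ℝ≥0∞) + 1)⁻¹ := by
    intro n
    have hpos : μ {(1 : G)} < ((n : ℝ≥0∞) + 1)⁻¹ := by
      rw [h0]
      simp
    obtain ⟨U, h1, h2, h3⟩ := Set.exists_isOpen_lt_of_lt _ _ hpos
    exact ⟨U, h1, h2, h3⟩
  choose U hU1 hUo hUm using hU
  have hF : ∀ n : ℕ, ∃ f : C(G, ℝ), EqOn f 1 {(1 : G)} ∧ EqOn f 0 (U n)ᶜ ∧ HasCompactSupport f ∧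
      ∀ x, f x ∈ Icc (0 : ℝ) 1 := by
    intro n
    apply exists_continuous_one_zero_of_isCompact isCompact_singleton (hUo n).isClosed_compl
    rw [disjoint_compl_right_iff_subset]
    exact hU1 n
  choose F hF1 hF0 hFc hF01 using hF
  set s : Set G := ⋂ n, (F n) ⁻¹' {1} with hs
  have hsclosed : IsClosed s := isClosed_iInter fun n => isClosed_singleton.preimage (F n).continuous
  have hscomp : IsCompact s := by
    apply (hFc 0).isCompact.of_isClosed_subset hsclosed
    intro x hx
    apply subset_tsupport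
    have : (F 0) x = 1 := by
      have := mem_iInter.mp hx 0
      simpa using this
    simp [this]
  have hsG : IsGδ s := by
    apply IsGδ.iInter
    intro n
    exact (isClosed_singleton.isGδ).preimage (F n).continuous
  obtain ⟨f, hf1, -, hfc, hf01⟩ := exists_continuous_one_zero_of_isCompact_of_isGδ hscomp hsG
    isClosed_empty (disjoint_empty s)
  refine ⟨f, hfc, hf01, ?_, ?_⟩
  · have : (1 : G) ∈ s := by
      rw [hs, mem_iInter]
      intro n
      simpa using hF1 n (mem_singleton 1)
    rw [hf1] at this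
    simpa using this
  · have h1 : {x | f x = 1} = s := by rw [hf1]; rfl
    rw [h1]
    have h2 : ∀ n : ℕ, μ s ≤ ((n : ℝ≥0∞) + 1)⁻¹ := by
      intro n
      refine (measure_mono ?_).trans (hUm n).le
      intro x hx
      by_contra hxU
      have h3 := hF0 n hxU
      have h4 : (F n) x = 1 := by
        have := mem_iInter.mp hx n
        simpa using this
      rw [h4] at h3
      simp at h3
    by_contra hne0
    obtain ⟨n, hn⟩ := ENNReal.exists_inv_nat_lt hne0
    have h5 := h2 n
    have h6 : ((n : ℝ≥0∞) + 1)⁻¹ ≤ (n : ℝ≥0∞)⁻¹ := by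
      apply ENNReal.inv_le_inv.mpr
      exact le_self_add
    exact absurd (h5.trans h6) (not_le.mpr hn)

lemma null_right {G : Type*} [Group G] [TopologicalSpace G] [IsTopologicalGroup G]
    [LocallyCompactSpace G] [MeasurableSpace G] [BorelSpace G]
    (μ : Measure G) [μ.IsHaarMeasure] [μ.Regular] {A : Set G} (hA : μ A = 0) (g : G) :
    μ ((fun x => x * g) ⁻¹' A) = 0 := by
  have h1 : Measure.map (fun x => x * g) μ = Measure.haarScalarFactor (Measure.map (fun x => x * g) μ) μ • μ := by
    have : (Measure.map (fun x => x * g) μ).Regular := Measure.Regular.map (Homeomorph.mulRight g)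
    exact Measure.isMulLeftInvariant_eq_smul_of_regular _ μ
  have h2 : (Measure.map (fun x => x * g) μ) A = μ ((fun x => x * g) ⁻¹' A) :=
    (MeasurableEquiv.mulRight g).map_apply A
  rw [← h2, h1]
  simp [hA]

theorem exists_sym_set (G : Type*) [Group G] [TopologicalSpace G] [IsTopologicalGroup G]
    [LocallyCompactSpace G] [T2Space G] [MeasurableSpace G] [BorelSpace G]
    (hG : ¬ DiscreteTopology G) (μ : MeasureTheory.Measure G) [μ.IsHaarMeasure] [μ.Regular] :
    ∃ S : Set G, MeasurableSet S ∧ S⁻¹ = S ∧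
      ∀ V ∈ nhds (1 : G), 0 < μ (S ∩ V) ∧ 0 < μ (V \ S) := by
  obtain ⟨f, hfc, hf01, hf1, hfnull⟩ := exists_f G hG μ
  have hdc : Continuous (d f) := d_cont hf01 f.continuous hfc
  have hlow : ∀ x, 1 - f x ≤ d f x := by
    intro x
    have h := le_d hf01 x 1
    rw [one_mul, hf1] at h
    have := neg_abs_le (f x - 1)
    linarith
  have hL0 : μ {x | d f x = 0} = 0 := by
    apply measure_mono_null _ hfnull
    intro x hx
    have h1 := hlow x
    have h2 := (hf01 x).2
    simp only [mem_ofPred_eq] at hx ⊢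
    linarith
  have hhalf : IsCompact {x | d f x ≤ 1 / 2} := by
    apply hfc.isCompact.of_isClosed_subset (isClosed_le hdc continuous_const)
    intro x hx
    apply subset_tsupport
    have h1 := hlow x
    simp only [mem_ofPred_eq] at hx
    simp only [Function.mem_support]
    intro h2
    rw [h2] at h1
    linarith
  -- key covering
  have hcov : ∀ V ∈ 𝓝 (1 : G), ∃ ε : ℝ, 0 < ε ∧ ∀ A : Set G, (∀ x ∈ A, d f x < ε) →
      (∀ x l, d f l = 0 → x ∈ A → x * l ∈ A) → μ (A ∩ V) = 0 → μ A = 0 := by
    intro V hV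
    have hLc : IsCompact {x | d f x = 0} := by
      apply hhalf.of_isClosed_subset (isClosed_eq hdc continuous_const)
      intro x hx
      simp only [mem_ofPred_eq] at hx ⊢
      rw [hx]; norm_num
    -- open cover
    have hVo : ∀ l : G, (fun x => x * l⁻¹) ⁻¹' V ∈ 𝓝 l := by
      intro l
      have : Continuous fun x : G => x * l⁻¹ := by fun_prop
      have h1 := this.tendsto l
      simp only [mul_inv_cancel] at h1
      exact h1 hV
    obtain ⟨T, hTL, hTc⟩ := hLc.elim_nhds_subcover (fun l => (fun x => x * l⁻¹) ⁻¹' V)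
      (fun l _ => hVo l)
    set W : Set G := interior (⋃ l ∈ T, (fun x => x * l⁻¹) ⁻¹' V) with hW
    have hLW : {x | d f x = 0} ⊆ ⋃ l ∈ T, (fun x => x * l⁻¹) ⁻¹' V := hTc
    -- use interior cover
    obtain ⟨T', hT'L, hT'c⟩ := hLc.elim_nhds_subcover (fun l => interior ((fun x => x * l⁻¹) ⁻¹' V))
      (fun l _ => interior_mem_nhds.mpr (hVo l))
    set W' : Set G := ⋃ l ∈ T', interior ((fun x => x * l⁻¹) ⁻¹' V) with hW'
    have hW'o : IsOpen W' := isOpen_biUnion fun l _ => isOpen_interior
    obtain ⟨ε, hε, hεW⟩ : ∃ ε : ℝ, 0 < ε ∧ ∀ x, d f x < ε → x ∈ W' := by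
      have hC : IsCompact ({x | d f x ≤ 1 / 2} \ W') := hhalf.diff hW'o
      rcases ({x | d f x ≤ 1 / 2} \ W').eq_empty_or_nonempty with hemp | hne
      · refine ⟨1 / 2, by norm_num, fun x hx => ?_⟩
        by_contra hxW
        have : x ∈ ({x | d f x ≤ 1 / 2} \ W') := ⟨hx.le, hxW⟩
        rw [hemp] at this
        exact this
      · obtain ⟨y, hy, hymin⟩ := hC.exists_isMinOn hne hdc.continuousOn
        have hypos : 0 < d f y := by
          rcases (d_nonneg hf01 y).lt_or_eq with h | h
          · exact h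
          · exfalso
            exact hy.2 (hT'c (by simp [← h]))
        refine ⟨min (1 / 2) (d f y), lt_min (by norm_num) hypos, fun x hx => ?_⟩
        by_contra hxW
        have h1 : x ∈ ({x | d f x ≤ 1 / 2} \ W') := ⟨(hx.trans_le (min_le_left _ _)).le, hxW⟩
        have h2 : d f y ≤ d f x := hymin h1
        have h3 := hx.trans_le (min_le_right _ _)
        linarith
    refine ⟨ε, hε, fun A hAε hAL hAV => ?_⟩
    have hsub : A ⊆ ⋃ l ∈ T', (fun x => x * l⁻¹) ⁻¹' (A ∩ V) := by
      intro x hx
      have h1 := hεW x (hAε x hx)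
      rw [hW', mem_iUnion₂] at h1
      obtain ⟨l, hl, hxl⟩ := h1
      rw [mem_iUnion₂]
      refine ⟨l, hl, ?_, ?_⟩
      · apply hAL x l⁻¹ _ hx
        rw [d_inv hf01]
        exact hT'L l hl
      · exact (interior_subset hxl : x ∈ (fun x => x * l⁻¹) ⁻¹' V)
    apply measure_mono_null hsub
    apply (measure_biUnion_null_iff T'.countable_toSet).mpr
    intro l _
    exact null_right μ hAV l⁻¹
  -- annuli
  have hann : ∀ b : ℝ, 0 < b → ∃ a : ℝ, 0 < a ∧ a ≤ b / 2 ∧ 0 < μ {x | a ≤ d f x ∧ d f x < b} := by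
    intro b hb
    by_contra hcon
    push Not at hcon
    have h1 : {x | d f x < b} ⊆ {x | d f x = 0} ∪ ⋃ n : ℕ, {x | b / (n + 2) ≤ d f x ∧ d f x < b} := by
      intro x hx
      rcases (d_nonneg hf01 x).lt_or_eq with h | h
      · right
        rw [mem_iUnion]
        obtain ⟨n, hn⟩ := exists_nat_gt (b / d f x)
        refine ⟨n, ?_, hx⟩
        rw [div_le_iff₀ (by positivity)]
        rw [div_lt_iff₀ h] at hn
        nlinarith
      · left
        exact h.symm
    have h2 : μ {x | d f x < b} = 0 := by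
      apply measure_mono_null h1
      apply measure_union_null hL0
      rw [measure_iUnion_null_iff]
      intro n
      have h3 := hcon (b / (n + 2)) (by positivity) (by
        apply div_le_div_of_nonneg_left hb.le (by norm_num)
        have : (0 : ℝ) ≤ n := Nat.cast_nonneg n
        linarith)
      exact le_antisymm h3 (by simp)
    have h4 : 0 < μ {x | d f x < b} := by
      apply IsOpen.measure_pos μ (isOpen_lt hdc continuous_const)
      exact ⟨1, by simp [d_one, hb]⟩
    exact absurd h2 h4.ne'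
  choose! e he0 hehalf hepos using hann
  let r : ℕ → ℝ := fun n => e^[n] 1
  have hr0 : r 0 = 1 := rfl
  have hrs : ∀ n, r (n + 1) = e (r n) := fun n => Function.iterate_succ_apply' e n 1
  have hrpos : ∀ n, 0 < r n := by
    intro n
    induction n with
    | zero => simp [hr0]
    | succ n ih => rw [hrs]; exact he0 _ ih
  have hrhalf : ∀ n, r (n + 1) ≤ r n / 2 := fun n => by rw [hrs]; exact hehalf _ (hrpos n)
  have hrle : ∀ n, r n ≤ (1 / 2) ^ n := by
    intro n
    induction n with
    | zero => simp [hr0]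
    | succ n ih =>
      rw [pow_succ]
      have := hrhalf n
      linarith
  have hanti : Antitone r := by
    apply antitone_nat_of_succ_le
    intro n
    have := hrhalf n
    have := hrpos n
    linarith
  let A : ℕ → Set G := fun n => {x | r (n + 1) ≤ d f x ∧ d f x < r n}
  have hApos : ∀ n, 0 < μ (A n) := by
    intro n
    have := hepos _ (hrpos n)
    rw [← hrs] at this
    exact this
  have hAmeas : ∀ n, MeasurableSet (A n) := by
    intro n
    exact (isClosed_le continuous_const hdc).measurableSet.inter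
      (isOpen_lt hdc continuous_const).measurableSet
  have hAV : ∀ V ∈ 𝓝 (1 : G), ∃ N : ℕ, ∀ n ≥ N, 0 < μ (A n ∩ V) := by
    intro V hV
    obtain ⟨ε, hε, hcovV⟩ := hcov V hV
    obtain ⟨N, hN⟩ := exists_pow_lt_of_lt_one hε (by norm_num : (1 / 2 : ℝ) < 1)
    refine ⟨N, fun n hn => ?_⟩
    rw [pos_iff_ne_zero]
    intro h0
    have h1 := hcovV (A n) (fun x hx => by
        have h2 := hrle N
        have h3 := hanti hn
        have h4 := hx.2
        linarith) (fun x l hl hx => by
        show r (n + 1) ≤ d f (x * l) ∧ d f (x * l) < r n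
        rw [d_mul_of_zero hf01 hl]
        exact hx) h0
    exact absurd h1 (hApos n).ne'
  refine ⟨⋃ n, A (2 * n), MeasurableSet.iUnion fun n => hAmeas _, ?_, ?_⟩
  · ext x
    simp only [Set.mem_inv, mem_iUnion]
    apply exists_congr
    intro n
    show (r (2 * n + 1) ≤ d f x⁻¹ ∧ d f x⁻¹ < r (2 * n)) ↔ (r (2 * n + 1) ≤ d f x ∧ d f x < r (2 * n))
    rw [d_inv hf01]
  · intro V hV
    obtain ⟨N, hN⟩ := hAV V hV
    constructor
    · apply (hN (2 * N) (by omega)).trans_le
      apply measure_mono
      exact inter_subset_inter_left _ (subset_iUnion (fun n => A (2 * n)) N)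
    · apply (hN (2 * N + 1) (by omega)).trans_le
      apply measure_mono
      rintro x ⟨hx, hxV⟩
      refine ⟨hxV, ?_⟩
      intro hxS
      rw [mem_iUnion] at hxS
      obtain ⟨m, hm⟩ := hxS
      have h1 : r (2 * N + 1 + 1) ≤ d f x := hx.1
      have h2 : d f x < r (2 * N + 1) := hx.2
      have h3 : r (2 * m + 1) ≤ d f x := hm.1
      have h4 : d f x < r (2 * m) := hm.2
      rcases le_or_gt m N with h | h
      · have := hanti (show 2 * m + 1 ≤ 2 * N + 1 by omega)
        linarith
      · have := hanti (show 2 * N + 1 + 1 ≤ 2 * m by omega)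
        linarith

end Pool.Agent.H516R3.BeurSet
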