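import Mathlib
import Pool.Agent.Helper188.NCM.Stmts2

/-! Words span the Cuntz type algebra (TaskWords of `H188-CUNTZ`). -/

set_option autoImplicit false

namespace Pool.Agent.H516R3.CuntzWords

open Pool.Agent.Helper188.NCM

variable {U H : Type} [CStarAlgebra U] [NormedAddCommGroup H] [InnerProductSpace ℂ H]
  {s : H →ₗ[ℂ] U}

lemma star_mul_words (hs : ∀ η ξ : H, star (s η) * s ξ = inner ℂ η ξ • (1 : U)) (q : List H) :
    ∀ r : List H, ∃ (c : ℂ) (a b : List H),
      star ((q.map s).prod) * (r.map s).prod = c • ((a.map s).prod * star ((b.map s).prod)) := by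
  induction q with
  | nil =>
    intro r
    exact ⟨1, r, [], by simp⟩
  | cons η q ih =>
    intro r
    cases r with
    | nil => exact ⟨1, [], η :: q, by simp⟩
    | cons ξ r =>
      obtain ⟨c, a, b, h⟩ := ih r
      refine ⟨inner ℂ η ξ * c, a, b, ?_⟩
      rw [List.map_cons, List.map_cons, List.prod_cons, List.prod_cons, star_mul]
      calc star ((q.map s).prod) * star (s η) * (s ξ * (r.map s).prod)
          = star ((q.map s).prod) * (star (s η) * s ξ) * (r.map s).prod := by
            simp only [mul_assoc]
        _ = inner ℂ η ξ • (star ((q.map s).prod) * (r.map s).prod) := by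
            rw [hs, mul_smul_comm, mul_one, smul_mul_assoc]
        _ = _ := by rw [h, smul_smul]

lemma cword_mul (hs : ∀ η ξ : H, star (s η) * s ξ = inner ℂ η ξ • (1 : U))
    (x y : List H × List H) : ∃ (c : ℂ) (z : List H × List H),
      cword s x * cword s y = c • cword s z := by
  obtain ⟨c, a, b, h⟩ := star_mul_words hs x.2 y.1
  refine ⟨c, (x.1 ++ a, y.2 ++ b), ?_⟩
  unfold cword
  simp only [List.map_append, List.prod_append, star_mul]
  calc (x.1.map s).prod * star ((x.2.map s).prod) * ((y.1.map s).prod * star ((y.2.map s).prod))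
      = (x.1.map s).prod * (star ((x.2.map s).prod) * (y.1.map s).prod) *
          star ((y.2.map s).prod) := by simp only [mul_assoc]
    _ = _ := by
      rw [h, mul_smul_comm, smul_mul_assoc]
      simp only [mul_assoc]

lemma cword_star (x : List H × List H) : star (cword s x) = cword s (x.2, x.1) := by
  unfold cword
  rw [star_mul, star_star]

lemma span_mul (hs : ∀ η ξ : H, star (s η) * s ξ = inner ℂ η ξ • (1 : U)) {a b : U}
    (ha : a ∈ Submodule.span ℂ (Set.range (cword s)))
    (hb : b ∈ Submodule.span ℂ (Set.range (cword s))) :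
    a * b ∈ Submodule.span ℂ (Set.range (cword s)) := by
  induction ha using Submodule.span_induction with
  | mem x hx =>
    obtain ⟨x, rfl⟩ := hx
    induction hb using Submodule.span_induction with
    | mem y hy =>
      obtain ⟨y, rfl⟩ := hy
      obtain ⟨c, z, h⟩ := cword_mul hs x y
      rw [h]
      exact Submodule.smul_mem _ _ (Submodule.subset_span ⟨z, rfl⟩)
    | zero => rw [mul_zero]; exact Submodule.zero_mem _
    | add y z _ _ hy hz => rw [mul_add]; exact Submodule.add_mem _ hy hz
    | smul c y _ hy => rw [mul_smul_comm]; exact Submodule.smul_mem _ _ hy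
  | zero => rw [zero_mul]; exact Submodule.zero_mem _
  | add y z _ _ hy hz => rw [add_mul]; exact Submodule.add_mem _ hy hz
  | smul c y _ hy => rw [smul_mul_assoc]; exact Submodule.smul_mem _ _ hy

lemma span_star {a : U} (ha : a ∈ Submodule.span ℂ (Set.range (cword s))) :
    star a ∈ Submodule.span ℂ (Set.range (cword s)) := by
  induction ha using Submodule.span_induction with
  | mem x hx =>
    obtain ⟨x, rfl⟩ := hx
    rw [cword_star]
    exact Submodule.subset_span ⟨_, rfl⟩
  | zero => rw [star_zero]; exact Submodule.zero_mem _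
  | add y z _ _ hy hz => rw [star_add]; exact Submodule.add_mem _ hy hz
  | smul c y _ hy => rw [star_smul]; exact Submodule.smul_mem _ _ hy

lemma one_mem_span : (1 : U) ∈ Submodule.span ℂ (Set.range (cword s)) :=
  Submodule.subset_span ⟨([], []), by simp [cword]⟩

/-- The span of the words as a star subalgebra. -/
def wordAlg (s : H →ₗ[ℂ] U) (hs : ∀ η ξ : H, star (s η) * s ξ = inner ℂ η ξ • (1 : U)) :
    StarSubalgebra ℂ U where
  carrier := Submodule.span ℂ (Set.range (cword s))
  mul_mem' := fun ha hb => span_mul hs ha hb
  one_mem' := one_mem_span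
  add_mem' := fun ha hb => Submodule.add_mem _ ha hb
  zero_mem' := Submodule.zero_mem _
  algebraMap_mem' := fun c => by
    rw [Algebra.algebraMap_eq_smul_one]
    exact Submodule.smul_mem _ _ one_mem_span
  star_mem' := fun ha => span_star ha

theorem taskWords : TaskWords := by
  intro U H _ _ _ s hs hdense
  have hle : StarAlgebra.adjoin ℂ (Set.range s) ≤ wordAlg s hs := by
    refine StarAlgebra.adjoin_le ?_
    rintro _ ⟨ξ, rfl⟩
    exact Submodule.subset_span ⟨([ξ], []), by simp [cword]⟩
  rw [Submodule.eq_top_iff']
  intro x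
  have hx : x ∈ (StarAlgebra.adjoin ℂ (Set.range s)).topologicalClosure := by
    rw [hdense]; trivial
  have hx' : x ∈ closure ((StarAlgebra.adjoin ℂ (Set.range s) : StarSubalgebra ℂ U) : Set U) := by
    rw [← StarSubalgebra.topologicalClosure_coe]
    exact hx
  have h2 : x ∈ closure ((Submodule.span ℂ (Set.range (cword s)) : Submodule ℂ U) : Set U) :=
    closure_mono (fun y hy => hle hy) hx'
  rw [← Submodule.topologicalClosure_coe] at h2
  exact h2

end Pool.Agent.H516R3.CuntzWords
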